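import Pool.Agent.Helper32.OIP.Goals

/-!
# Project OIP (MP_fc0446_an): packet OIP-MA4, local approximation
-/

namespace Pool.Agent.Helper3.OIP

open MeasureTheory Pool.Agent.Helper32.OIP Pool.Agent.Helper58.Orb

theorem pm_prob (A : Type) {E : Type} [MeasurableSpace E] (ν : Measure E) [IsProbabilityMeasure ν] :
    IsProbabilityMeasure (pm A ν) := by
  unfold pm; infer_instance

theorem dense_cyl (A E : Type) [MeasurableSpace E] (ν : Measure E) [IsProbabilityMeasure ν] :
    (pm A ν).MeasureDense (measurableCylinders fun _ : A => E) := by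
  have := pm_prob A ν
  refine Measure.MeasureDense.of_generateFrom_isSetAlgebra_finite (pm A ν)
    isSetAlgebra_measurableCylinders ?_
  exact generateFrom_measurableCylinders.symm

theorem ma4 : GoalMA4 := by
  intro A E M _ _ ν _ X hX ε hε
  classical
  have := pm_prob A ν
  -- a point
  have hne : Nonempty (A → E) := by
    by_contra h
    rw [not_nonempty_iff] at h
    have h1 : (pm A ν) Set.univ = 1 := measure_univ
    rw [Set.univ_eq_empty_iff.2 h, measure_empty] at h1
    exact zero_ne_one h1
  obtain ⟨z0⟩ := hne
  have hM : 0 < (Fintype.card M : ℝ) := by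
    have : 0 < Fintype.card M := Fintype.card_pos_iff.2 ⟨X z0⟩
    exact_mod_cast this
  have hεM : 0 < ε / Fintype.card M := div_pos hε hM
  -- approximating cylinders
  have h1 : ∀ m : M, ∃ t ∈ measurableCylinders (fun _ : A => E),
      (pm A ν) (symmDiff {z | X z = m} t) < ENNReal.ofReal (ε / Fintype.card M) := fun m =>
    (dense_cyl A E ν).approx _ (hX m) (measure_ne_top _ _) _ hεM
  choose G hGm hGε using h1
  have h2 : ∀ m : M, ∃ (s : Finset A) (S : Set (∀ _ : s, E)),
      MeasurableSet S ∧ G m = cylinder s S := fun m => (mem_measurableCylinders _).1 (hGm m)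
  choose s S hS hGS using h2
  -- the approximating function
  let b : (A → E) → (M → Bool) := fun z m => decide (z ∈ G m)
  let F : (M → Bool) → M := fun c => if h : ∃ m, c m = true then h.choose else X z0
  have hbm : Measurable b := by
    refine measurable_pi_iff.2 fun m => ?_
    have hGmm : MeasurableSet (G m) := MeasurableSet.of_mem_measurableCylinders (hGm m)
    have hpre : (fun z => b z m) ⁻¹' {true} = G m := by
      ext z; simp [b]
    refine measurable_to_bool ?_
    rw [hpre]
    exact hGmm
  refine ⟨Finset.univ.biUnion s, fun z => F (b z), ?_, ?_, ?_⟩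
  · intro m
    have : {z | F (b z) = m} = b ⁻¹' (F ⁻¹' {m}) := rfl
    rw [this]
    exact hbm (Set.toFinite _).measurableSet
  · intro x y hxy
    have hb : b x = b y := by
      funext m
      have hm : x ∈ G m ↔ y ∈ G m := by
        rw [hGS m, mem_cylinder, mem_cylinder]
        have : (s m).restrict x = (s m).restrict y := by
          funext i
          exact hxy i.1 (by
            rw [Finset.mem_coe, Finset.mem_biUnion]
            exact ⟨m, Finset.mem_univ _, i.2⟩)
        rw [this]
      simp only [b, hm]
    show F (b x) = F (b y)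
    rw [hb]
  · have hsub : {z | F (b z) ≠ X z} ⊆ ⋃ m : M, symmDiff {z | X z = m} (G m) := by
      intro z hz
      by_contra hnot
      rw [Set.mem_iUnion, not_exists] at hnot
      have hiff : ∀ m, X z = m ↔ z ∈ G m := by
        intro m
        have := hnot m
        rw [Set.mem_symmDiff] at this
        simp only [Set.mem_ofPred_eq] at this
        tauto
      apply hz
      have hex : ∃ m, b z m = true := ⟨X z, by simpa [b] using (hiff _).1 rfl⟩
      show (if h : ∃ m, b z m = true then h.choose else X z0) = X z
      rw [dif_pos hex]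
      have h3 : b z hex.choose = true := hex.choose_spec
      have h4 : z ∈ G hex.choose := by simpa [b] using h3
      exact ((hiff _).2 h4).symm
    have h5 : (pm A ν) {z | F (b z) ≠ X z} ≤ ENNReal.ofReal ε := by
      calc (pm A ν) {z | F (b z) ≠ X z} ≤ (pm A ν) (⋃ m : M, symmDiff {z | X z = m} (G m)) :=
            measure_mono hsub
        _ ≤ ∑ m : M, (pm A ν) (symmDiff {z | X z = m} (G m)) := measure_iUnion_fintype_le _ _
        _ ≤ ∑ _m : M, ENNReal.ofReal (ε / Fintype.card M) :=
            Finset.sum_le_sum fun m _ => (hGε m).le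
        _ = ENNReal.ofReal ε := by
            rw [Finset.sum_const, Finset.card_univ, ← ENNReal.ofReal_nsmul, nsmul_eq_mul,
              mul_div_cancel₀ _ hM.ne']
    exact ENNReal.toReal_le_of_le_ofReal hε.le h5

end Pool.Agent.Helper3.OIP
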